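import Mathlib

set_option autoImplicit false

namespace Pool.Agent.H.MP_e0518f_lc

open Set Filter Topology BoundedContinuousFunction

theorem uc (F : CircleDeg1Lift) (hF : Continuous F) {r : ℝ} (hr : 0 < r) :
    ∃ d > 0, ∀ x y, |x - y| ≤ d → |F x - F y| ≤ r := by
  obtain ⟨d, hd, H⟩ := Metric.uniformContinuousOn_iff_le.1
    ((isCompact_Icc (a := (-1 : ℝ)) (b := 2)).uniformContinuousOn_of_continuous hF.continuousOn) r hr
  refine ⟨min d 1, lt_min hd one_pos, fun x y h => ?_⟩
  have a1 := Int.floor_le x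
  have a2 := Int.lt_floor_add_one x
  have a3 := abs_le.1 (h.trans (min_le_right _ _))
  have := H (x - ⌊x⌋) ⟨by linarith, by linarith⟩ (y - ⌊x⌋) ⟨by linarith, by linarith⟩
    (by rw [Real.dist_eq, sub_sub_sub_cancel_right]; exact h.trans (min_le_left _ _))
  rwa [F.map_sub_int, F.map_sub_int, Real.dist_eq, sub_sub_sub_cancel_right] at this

def Y : Set (ℝ →ᵇ ℝ) := {u | (∀ x y, x ≤ y → x + u x ≤ y + u y) ∧ ∀ x, u (x + 1) = u x}

instance : CompleteSpace Y := IsClosed.completeSpace_coe (hs := by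
  simp only [Y, setOf_and, setOf_forall]
  exact (isClosed_iInter fun x => isClosed_iInter fun y => isClosed_iInter fun _ =>
    isClosed_le (by fun_prop) (by fun_prop)).inter
      (isClosed_iInter fun x => isClosed_eq (by fun_prop) (by fun_prop)))

def toL (u : Y) : CircleDeg1Lift :=
  ⟨⟨fun x => x + u.1 x, fun x y h => u.2.1 x y h⟩, fun x => by simp [u.2.2]; ring⟩

theorem toL_cont (u : Y) : Continuous (toL u) := continuous_id.add u.1.continuous

theorem toL_ev (x : ℝ) : Continuous fun u => toL u x := by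
  change Continuous fun u : Y => x + u.1 x
  fun_prop

theorem exists_L (F : CircleDeg1Lift) (hF : Continuous F) : ∃ u, toL u = F := by
  refine ⟨⟨ofNormedAddCommGroup (fun x => F x - x) (by fun_prop) (|F 0| + 1) fun x => ?_,
    fun x y h => by simpa using F.mono h, fun x => by simp⟩, by ext x; change x + (F x - x) = _; ring⟩
  have a1 := F.map_le_of_map_zero x
  have a2 := F.le_map_of_map_zero x
  have a3 := Int.ceil_lt_add_one x
  have a4 := Int.lt_floor_add_one x
  rw [Real.norm_eq_abs, abs_le]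
  constructor <;> linarith [le_abs_self (F 0), neg_abs_le (F 0)]

theorem dist_L {u v : Y} {r : ℝ} (hr : 0 ≤ r) : dist u v ≤ r ↔ ∀ x, |toL u x - toL v x| ≤ r := by
  rw [Subtype.dist_eq, dist_le hr]
  refine forall_congr' fun x => ?_
  change _ ↔ |x + u.1 x - (x + v.1 x)| ≤ r
  rw [Real.dist_eq, add_sub_add_left_eq_sub]

noncomputable def st (d x : ℝ) : ℝ := ⌊x⌋ + min 1 (Int.fract x / d)

theorem st_mono {d : ℝ} (hd : 0 < d) : Monotone (st d) := fun x y h => by
  have : 0 ≤ min 1 (Int.fract y / d) := le_min one_pos.le (div_nonneg (Int.fract_nonneg _) hd.le)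
  rcases (Int.floor_le_floor h).eq_or_lt with e | e
  · simp only [st, Int.fract, e]; gcongr
  · have : (⌊x⌋ : ℝ) + 1 ≤ ⌊y⌋ := by exact_mod_cast e
    simp only [st]; linarith [min_le_left 1 (Int.fract x / d)]

theorem st_cont {d : ℝ} (hd : 0 < d) (h1 : d < 1) : Continuous (st d) := by
  have := ContinuousOn.comp_fract'' (f := fun y : ℝ => min 1 (y / d) - y) (by fun_prop)
    (by simp [(one_le_inv₀ hd).2 h1.le])
  refine (continuous_id.add this).congr fun x => ?_
  simp only [st, Int.fract, Pi.add_apply, id, Function.comp]; ring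

theorem st_near {d : ℝ} (hd : 0 < d) (x : ℝ) : |st d x - x| ≤ 1 := by
  have : 0 ≤ min 1 (Int.fract x / d) := le_min one_pos.le (div_nonneg (Int.fract_nonneg _) hd.le)
  rw [abs_le, st]
  constructor <;> linarith [Int.floor_le x, Int.lt_floor_add_one x, min_le_left 1 (Int.fract x / d)]

theorem st_eq {d : ℝ} (hd : 0 < d) (h1 : d < 1) (i : ℤ) : st d (i + d) = st d (i + 1) := by
  simp [st, Int.floor_eq_zero_iff.2 ⟨hd.le, h1⟩, Int.fract_eq_self.2 ⟨hd.le, h1⟩, hd.ne']

noncomputable def sg {d : ℝ} (hd : 0 < d) (k : ℕ) : CircleDeg1Lift :=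
  ⟨⟨fun x => st d ((k + 1) * x) / (k + 1), fun x y h => by
    have := st_mono hd (mul_le_mul_of_nonneg_left h (by positivity : (0 : ℝ) ≤ k + 1))
    dsimp only; gcongr⟩, fun x => by
    have : ((k : ℝ) + 1) * (x + 1) = (k + 1) * x + ((k + 1 : ℕ) : ℤ) := by push_cast; ring
    simp only [this, st, Int.floor_add_intCast, Int.fract_add_intCast]
    push_cast; field_simp; ring⟩

theorem exists_phi : ∃ Φ : CircleDeg1Lift, Continuous Φ ∧ StrictMono Φ ∧ ∀ n : ℕ, ∃ k : ℕ,
    ∀ i : ℤ, Φ ((i + 1) / (k + 1)) - Φ ((i + 1 / (n + 2) / (k + 1)) / (k + 1)) ≤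
      1 / (n + 2) / (k + 1) / (k + 1) := by
  have : Nonempty Y := ⟨⟨0, fun x y h => by simpa using h, fun _ => rfl⟩⟩
  have h1 : ∀ p : ℚ × ℚ, ∀ᶠ u in residual Y, p.1 < p.2 → toL u p.1 < toL u p.2 := fun p => by
    by_cases h : p.1 < p.2
    swap
    · simp [h]
    simp only [h, true_imp_iff]
    refine residual_of_dense_open (isOpen_lt (toL_ev _) (toL_ev _)) (Metric.dense_iff.2 fun u r hr => ?_)
    obtain ⟨t, t0, t1, t2⟩ : ∃ t : ℝ, 0 < t ∧ t ≤ 1 ∧ t * ‖u.1‖ ≤ r / 2 :=
      ⟨min 1 (r / 2 / (‖u.1‖ + 1)), by positivity, min_le_left _ _, by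
        refine (mul_le_mul (min_le_right _ _) (le_add_of_nonneg_right one_pos.le) (norm_nonneg _)
          (by positivity)).trans_eq ?_
        field_simp⟩
    have h' : (p.1 : ℝ) < p.2 := by exact_mod_cast h
    refine ⟨⟨(1 - t) • u.1, fun x y h => ?_, fun x => by simp [u.2.2]⟩, ?_, ?_⟩
    · have := u.2.1 x y h
      simp only [coe_smul, smul_eq_mul]; nlinarith
    · refine lt_of_le_of_lt ((dist_le (half_pos hr).le).2 fun x => ?_) (half_lt_self hr)
      change |(1 - t) * u.1 x - u.1 x| ≤ _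
      rw [show (1 - t) * u.1 x - u.1 x = -(t * u.1 x) by ring, abs_neg, abs_mul, abs_of_pos t0]
      exact (mul_le_mul_of_nonneg_left (u.1.norm_coe_le_norm x) t0.le).trans t2
    · have := u.2.1 _ _ h'.le
      change (p.1 : ℝ) + (1 - t) * u.1 p.1 < p.2 + (1 - t) * u.1 p.2
      nlinarith
  have h2 : ∀ n : ℕ, ∀ᶠ u in residual Y, ∃ k : ℕ, ∀ i : ℤ, toL u ((i + 1) / (k + 1)) -
      toL u ((i + 1 / (n + 2) / (k + 1)) / (k + 1)) ≤ 1 / (n + 2) / (k + 1) / (k + 1) := fun n => by
    refine mem_of_superset (residual_of_dense_open isOpen_interior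
      (Metric.dense_iff.2 fun u r hr => ?_)) interior_subset
    obtain ⟨d, hd, H⟩ := uc (toL u) (toL_cont u) (half_pos hr)
    obtain ⟨k, hk⟩ := exists_nat_one_div_lt hd
    have e0 : (0 : ℝ) < 1 / (n + 2) / (k + 1) := by positivity
    have e1 : (1 : ℝ) / (n + 2) / (k + 1) < 1 := by
      rw [div_div, div_lt_one (by positivity)]
      nlinarith [n.cast_nonneg (α := ℝ), k.cast_nonneg (α := ℝ)]
    have k0 : (0 : ℝ) < k + 1 := by positivity
    obtain ⟨v, hv⟩ := exists_L (toL u * sg e0 k) ((toL_cont u).comp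
      (((st_cont e0 e1).comp (continuous_const.mul continuous_id)).div_const _))
    refine ⟨v, ((dist_L (half_pos hr).le).2 fun x => ?_).trans_lt (half_lt_self hr),
      mem_interior_iff_mem_nhds.2 (mem_of_superset (Metric.closedBall_mem_nhds v
        (half_pos (div_pos e0 k0))) fun w hw => ⟨k, fun i => ?_⟩)⟩
    · rw [hv]
      refine H _ _ (le_trans ?_ hk.le)
      change |st _ ((k + 1) * x) / (k + 1) - x| ≤ _
      rw [div_sub' k0.ne', abs_div, abs_of_pos k0]
      gcongr
      exact st_near e0 _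
    · have b := (dist_L (half_pos (div_pos e0 k0)).le).1 hw
      have b1 := abs_le.1 (b ((i + 1) / (k + 1)))
      have b2 := abs_le.1 (b ((i + 1 / (n + 2) / (k + 1)) / (k + 1)))
      have : toL v ((i + 1) / (k + 1)) = toL v ((i + 1 / (n + 2) / (k + 1)) / (k + 1)) := by
        rw [hv]
        change toL u (st _ ((k + 1) * _) / (k + 1)) = toL u (st _ ((k + 1) * _) / (k + 1))
        rw [mul_div_cancel₀ _ k0.ne', mul_div_cancel₀ _ k0.ne', st_eq e0 e1]
      linarith
  obtain ⟨u, u1, u2⟩ := (dense_of_mem_residual ((eventually_countable_forall.2 h1).and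
    (eventually_countable_forall.2 h2))).nonempty
  refine ⟨toL u, toL_cont u, fun x y h => ?_, u2⟩
  obtain ⟨p, p1, p2⟩ := exists_rat_btwn h
  obtain ⟨q, q1, q2⟩ := exists_rat_btwn p2
  exact (((toL u).mono p1.le).trans_lt (u1 (p, q) (by exact_mod_cast q1))).trans_le
    ((toL u).mono q2.le)

end Pool.Agent.H.MP_e0518f_lc
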