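import Pool.Agent.H.MP_e0518f_lc.A

set_option autoImplicit false

namespace Pool.Agent.H.MP_e0518f_lc

open Set Filter Topology MeasureTheory

noncomputable abbrev ν : Measure ℝ := volume.restrict (Ioc 0 1)

instance : IsProbabilityMeasure ν := ⟨by simp⟩

theorem per_le {J : Set ℝ} (hJ : MeasurableSet J) : ν {s | ∃ m : ℤ, s + m ∈ J} ≤ volume J := by
  rw [setOf_exists]
  refine (measure_iUnion_le _).trans ?_
  have : ∀ m : ℤ, ν {s | s + m ∈ J} = volume (J ∩ Ioc (m : ℝ) (m + 1)) := fun m => by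
    rw [Measure.restrict_apply' measurableSet_Ioc, ← measure_preimage_add_right volume (m : ℝ)
      (J ∩ _)]
    congr 1; ext s; simp
  simp only [this]
  rw [← measure_iUnion (fun a b h => ((pairwise_disjoint_Ioc_intCast ℝ) h).mono inter_subset_right
    inter_subset_right) fun m => hJ.inter measurableSet_Ioc]
  exact measure_mono (iUnion_subset fun _ => inter_subset_left)

theorem int_eq (K : CircleDeg1Lift) (hK : Continuous K) (a b e : ℝ) (h : a ≤ b) (he : 0 ≤ e) :
    ∫⁻ u, ENNReal.ofReal (K (b + u) - (K (a + u) - e)) ∂ν = ENNReal.ofReal (b - a + e) := by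
  have p : Function.Periodic (fun x => K x - x) 1 := fun x => by simp
  have q : ∀ c, ∫ u in (0 : ℝ)..1, (K (c + u) - (c + u)) = ∫ u in (0 : ℝ)..1, (K u - u) :=
    fun c => by
      rw [intervalIntegral.integral_comp_add_left (fun x => K x - x), add_zero,
        p.intervalIntegral_add_eq c 0, zero_add]
  rw [← ofReal_integral_eq_lintegral_ofReal ((by fun_prop : Continuous _).integrableOn_Ioc)
    (.of_forall fun u => by
      have := K.mono (add_le_add_left h u)
      simp only [Pi.zero_apply]; linarith), ← intervalIntegral.integral_of_le zero_le_one]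
  congr 1
  have : ∀ u, K (b + u) - (K (a + u) - e) =
    (K (b + u) - (b + u)) - (K (a + u) - (a + u)) + (b - a + e) := fun u => by ring
  simp only [this]
  rw [intervalIntegral.integral_add, intervalIntegral.integral_sub, q, q]
  · simp
  all_goals exact (by fun_prop : Continuous _).intervalIntegrable _ _

theorem dyn {T : ℝ → ℝ} (hc : Continuous T) (hm : Monotone T) (N : ℕ) [NeZero N] (a b : ℤ → ℝ)
    (ha : ∀ j p : ℤ, a (j + N * p) = a j + p) (hb : ∀ j p : ℤ, b (j + N * p) = b j + p)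
    (H : ∀ j, ∃ i, a i ≤ T (a j) ∧ T (b j) ≤ b i) :
    ∃ q, 0 < q ∧ ∃ (y : ℝ) (p : ℤ), T^[q] y = y + p := by
  choose f f1 f2 using H
  have e : ∀ q j, a (f^[q] j) ≤ T^[q] (a j) ∧ T^[q] (b j) ≤ b (f^[q] j) := fun q j => by
    induction q with
    | zero => simp
    | succ q ih =>
      simp only [Function.iterate_succ_apply']
      exact ⟨(f1 _).trans (hm ih.1), (hm ih.2).trans (f2 _)⟩
  obtain ⟨c, d, h, e'⟩ : ∃ c d : ℕ, c < d ∧ ((f^[c] 0 : ℤ) : ZMod N) = (f^[d] 0 : ℤ) := by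
    obtain ⟨c, d, h, e'⟩ := Finite.exists_ne_map_eq_of_infinite
      fun q : ℕ => ((f^[q] 0 : ℤ) : ZMod N)
    rcases h.lt_or_gt with h | h
    exacts [⟨c, d, h, e'⟩, ⟨d, c, h, e'.symm⟩]
  obtain ⟨p, hp⟩ := (ZMod.intCast_eq_intCast_iff_dvd_sub _ _ _).1 e'
  have := e (d - c) (f^[c] 0)
  rw [← Function.iterate_add_apply, Nat.sub_add_cancel h.le, eq_add_of_sub_eq' hp, ha, hb] at this
  obtain ⟨y, hy⟩ := intermediate_value_univ₂ (f := fun y => y + (p : ℝ)) (by fun_prop)
    (hc.iterate _) this.1 this.2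
  exact ⟨_, Nat.sub_pos_of_lt h, y, p, hy.symm⟩

theorem est (Φ K : CircleDeg1Lift) (hΦ : Continuous Φ) (hK : Continuous K) (k : ℕ) {d : ℝ}
    (d0 : 0 < d) (d1 : d ≤ 1)
    (H : ∀ i : ℤ, Φ ((i + 1) / (k + 1)) - Φ ((i + d) / (k + 1)) ≤ d / (k + 1)) :
    ν.prod ν {z | ∀ q, 0 < q → ∀ (y : ℝ) (p : ℤ), (fun x => Φ (K x - z.2) + z.1)^[q] y ≠ y + p} ≤
      ENNReal.ofReal (2 * (k + 1) * d) := by
  have k0 : (0 : ℝ) < k + 1 := by positivity
  let a : ℤ → ℝ := fun j => Φ ((j + d) / (k + 1))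
  let b : ℤ → ℝ := fun j => Φ ((j + 1) / (k + 1))
  have ha : ∀ j p : ℤ, a (j + (k + 1 : ℕ) * p) = a j + p := fun j p => by
    rw [← Φ.map_add_int]; exact congrArg Φ (by push_cast; field_simp; ring)
  have hb : ∀ j p : ℤ, b (j + (k + 1 : ℕ) * p) = b j + p := fun j p => by
    rw [← Φ.map_add_int]; exact congrArg Φ (by push_cast; field_simp; ring)
  let B : Set (ℝ × ℝ) := ⋃ j : Fin (k + 1), ⋃ r : Fin (k + 1), ⋃ m : ℤ,
    {z | K (a (j : ℕ) + z.1) - d / (k + 1) - (r : ℕ) / (k + 1) < z.2 + m} ∩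
      {z | z.2 + m < K (b (j : ℕ) + z.1) - (r : ℕ) / (k + 1)}
  have oB : IsOpen B := isOpen_iUnion fun _ => isOpen_iUnion fun _ => isOpen_iUnion fun _ =>
    (isOpen_lt (by fun_prop) (by fun_prop)).inter (isOpen_lt (by fun_prop) (by fun_prop))
  have dv : ∀ j : ℤ, ∃ (r : Fin (k + 1)) (m : ℤ), j = (r : ℕ) + (k + 1 : ℕ) * m := fun j => by
    have h1 := Int.emod_nonneg j (b := (k + 1 : ℕ)) (by positivity)
    have h2 := Int.emod_lt_of_pos j (b := (k + 1 : ℕ)) (by positivity)
    exact ⟨⟨(j % (k + 1 : ℕ)).toNat, by omega⟩, j / (k + 1 : ℕ), by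
      simp only [Int.toNat_of_nonneg h1]; exact (Int.emod_add_mul_ediv _ _).symm⟩
  refine (measure_mono (t := B) fun z hz => ?_).trans ?_
  · by_contra hB
    obtain ⟨q, hq, y, p, e⟩ := dyn (T := fun x => Φ (K x - z.2) + z.1) (by fun_prop)
      (fun x y h => add_le_add_left (Φ.mono (sub_le_sub_right (K.mono h) _)) _) (k + 1)
      (fun j => a j + z.1) (fun j => b j + z.1) (fun j p => by rw [ha]; ring)
      (fun j p => by rw [hb]; ring) fun j => by
        have c1 := Int.le_ceil ((K (b j + z.1) - z.2) * (k + 1))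
        have c2 := Int.ceil_lt_add_one ((K (b j + z.1) - z.2) * (k + 1))
        refine ⟨⌈(K (b j + z.1) - z.2) * (k + 1)⌉ - 1, add_le_add_left (Φ.mono ?_) _,
          add_le_add_left (Φ.mono ?_) _⟩
        · generalize hi : ⌈(K (b j + z.1) - z.2) * (k + 1)⌉ - 1 = i
          rw [eq_add_of_sub_eq hi, Int.cast_add, Int.cast_one, add_lt_add_iff_right,
            ← div_lt_iff₀ k0] at c2
          by_contra c3
          obtain ⟨j, m, rfl⟩ := dv j
          obtain ⟨r, m', rfl⟩ := dv i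
          rw [ha, add_right_comm, K.map_add_int, add_div] at c3
          rw [hb, add_right_comm, K.map_add_int] at c2
          have : (((r : ℕ) + (k + 1 : ℕ) * m' : ℤ) : ℝ) / (k + 1) = (r : ℕ) / (k + 1) + m' := by
            push_cast; field_simp
          rw [this] at c2 c3
          refine hB (mem_iUnion.2 ⟨j, mem_iUnion.2 ⟨r, mem_iUnion.2 ⟨m' - m, ?_, ?_⟩⟩⟩) <;>
            simp only [mem_setOf_eq, Int.cast_sub] <;> linarith
        · rw [le_div_iff₀ k0]; push_cast; linarith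
    exact hz q hq y p e
  rw [Measure.prod_apply oB.measurableSet]
  refine (lintegral_mono (g := fun u => ∑ j : Fin (k + 1), ∑ r : Fin (k + 1), ENNReal.ofReal
    (K (b (j : ℕ) + u) - (K (a (j : ℕ) + u) - d / (k + 1)))) fun u => ?_).trans ?_
  · simp only [B, preimage_iUnion]
    refine (measure_iUnion_fintype_le _ _).trans (Finset.sum_le_sum fun j _ =>
      (measure_iUnion_fintype_le _ _).trans (Finset.sum_le_sum fun r _ => ?_))
    refine le_trans (measure_mono ?_) ((per_le (measurableSet_Ioo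
      (a := K (a (j : ℕ) + u) - d / (k + 1) - (r : ℕ) / (k + 1))
      (b := K (b (j : ℕ) + u) - (r : ℕ) / (k + 1)))).trans_eq (by simp))
    exact iUnion_subset fun m s hs => ⟨m, hs⟩
  rw [lintegral_finset_sum _ fun _ _ => by fun_prop]
  refine (Finset.sum_le_card_nsmul _ _ (ENNReal.ofReal (2 * d)) fun j _ => ?_).trans_eq ?_
  · rw [lintegral_finset_sum _ fun _ _ => by fun_prop, int_eq K hK _ _ _
      (Φ.mono (by gcongr)) (by positivity), Finset.sum_const, ← ENNReal.ofReal_nsmul]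
    refine ENNReal.ofReal_le_ofReal ?_
    have := H (j : ℕ)
    simp only [Finset.card_univ, Fintype.card_fin, nsmul_eq_mul, Nat.cast_add, Nat.cast_one]
    refine (mul_le_mul_of_nonneg_left (add_le_add_left this _) k0.le).trans_eq ?_
    field_simp; ring
  · rw [← ENNReal.ofReal_nsmul]; congr 1; simp; ring

theorem null : ∃ Φ : CircleDeg1Lift, Continuous Φ ∧ StrictMono Φ ∧ ∀ K : CircleDeg1Lift,
    Continuous K → ν.prod ν {z | ∀ q, 0 < q → ∀ (y : ℝ) (p : ℤ),
      (fun x => Φ (K x - z.2) + z.1)^[q] y ≠ y + p} = 0 := by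
  obtain ⟨Φ, h1, h2, h3⟩ := exists_phi
  refine ⟨Φ, h1, h2, fun K hK => le_antisymm ?_ zero_le⟩
  have t : Tendsto (fun n : ℕ => ENNReal.ofReal (2 / (n + 2))) atTop (𝓝 0) := by
    rw [← ENNReal.ofReal_zero]
    exact ENNReal.tendsto_ofReal (tendsto_const_nhds.div_atTop
      (tendsto_atTop_add_const_right _ _ tendsto_natCast_atTop_atTop))
  refine ge_of_tendsto' t fun n => ?_
  obtain ⟨k, hk⟩ := h3 n
  refine (est Φ K h1 hK k (by positivity) ?_ hk).trans_eq (by congr 1; field_simp)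
  rw [div_div, div_le_one (by positivity)]
  nlinarith [n.cast_nonneg (α := ℝ), k.cast_nonneg (α := ℝ)]

end Pool.Agent.H.MP_e0518f_lc
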